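import Pool.Agent.G02.Stmts

/-!
# Squad G02, row ARV: infinitely many parameters, type V (helper80)
-/

set_option autoImplicit false

namespace Pool.Agent.G02.H80

open Polynomial Pool.Agent.NJ Pool.Agent.G02

noncomputable section

/-- squarefree part of an integer -/
theorem sqf_part (a : ℤ) : ∃ d A : ℤ, Squarefree d ∧ a = d * A ^ 2 := by
  obtain ⟨c, b, h1, h2⟩ := Nat.sq_mul_squarefree a.natAbs
  have h3 : Squarefree (c : ℤ) := by
    rw [← Int.squarefree_natAbs]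
    simpa using h2
  rcases Int.natAbs_eq a with h | h
  · refine ⟨c, b, h3, ?_⟩
    rw [h, ← h1]
    push_cast
    ring
  · refine ⟨-c, b, ?_, ?_⟩
    · rw [← Int.squarefree_natAbs, Int.natAbs_neg]
      simpa using h2
    · rw [h, ← h1]
      push_cast
      ring

/-- squarefree part of a rational number -/
theorem sqf_rat {k : ℚ} (hk : k ≠ 0) : ∃ (d : ℤ) (c : ℚ), Squarefree d ∧ c ≠ 0 ∧
    k = d * c ^ 2 := by
  obtain ⟨d, A, hd, h⟩ := sqf_part (k.num * k.den)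
  have hden : (k.den : ℚ) ≠ 0 := by exact_mod_cast k.den_nz
  have hnum : (k.num : ℚ) ≠ 0 := by exact_mod_cast Rat.num_ne_zero.2 hk
  have h1 : (k.num : ℚ) * k.den = d * (A : ℚ) ^ 2 := by exact_mod_cast h
  have hA : (A : ℚ) ≠ 0 := by
    intro h0
    rw [h0] at h1
    have : (k.num : ℚ) * k.den = 0 := by rw [h1]; ring
    exact mul_ne_zero hnum hden this
  refine ⟨d, A / k.den, hd, div_ne_zero hA hden, ?_⟩
  have h2 : k = (k.num : ℚ) * k.den / (k.den : ℚ) ^ 2 := by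
    rw [pow_two, mul_div_mul_right _ _ hden]
    exact (Rat.num_div_den k).symm
  refine h2.trans ?_
  rw [h1, div_pow, mul_div_assoc]

/-- change of the parameter by a square -/
theorem gd_sq (scl : SclStmt) {k₀ c t : ℚ} (hc : c ≠ 0) (h : Gd k₀ t) : Gd (k₀ * c ^ 2) t := by
  obtain ⟨h1, h2, h3, h4⟩ := h
  refine ⟨mul_ne_zero h1 (pow_ne_zero 2 hc), h2, h3, ?_⟩
  have h5 := (scl (k₀ * t) (k₀ ^ 2 * t) c hc).2 h4
  have e1 : k₀ * c ^ 2 * t = k₀ * t * c ^ 2 := by ring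
  have e2 : (k₀ * c ^ 2) ^ 2 * t = k₀ ^ 2 * t * c ^ 4 := by ring
  rw [e1, e2]
  exact h5

/-- the criterion for infinitely many parameters -/
theorem inf_of {S : Set ℚ} (h : ∀ N : ℕ, ∃ t ∈ S, N < t.num.natAbs) : S.Infinite := by
  apply Set.Infinite.of_image (fun t : ℚ => t.num.natAbs)
  apply Set.infinite_of_forall_exists_gt
  intro N
  obtain ⟨t, ht, hN⟩ := h N
  exact ⟨_, ⟨t, ht, rfl⟩, hN⟩

theorem num1 {p q : ℕ} (hp : p.Prime) (hq : q.Prime) (h : p ≠ q) (h2 : q ≠ 2) :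
    (2 * (p : ℚ) / q).num.natAbs = 2 * p := by
  have hc : Nat.Coprime (2 * p) q :=
    Nat.Coprime.mul_left ((Nat.coprime_primes Nat.prime_two hq).2 h2.symm)
      ((Nat.coprime_primes hp hq).2 h)
  have h1 : (2 * (p : ℚ) / q) = (((2 * p : ℕ) : ℤ) : ℚ) / ((q : ℤ) : ℚ) := by
    push_cast
    rfl
  rw [h1, Rat.num_div_eq_of_coprime (by exact_mod_cast hq.pos)
    (by rw [Int.natAbs_natCast, Int.natAbs_natCast]; exact hc)]
  exact Int.natAbs_natCast _

theorem num3 {p q : ℕ} (hp : p.Prime) (hq : q.Prime) (h : p ≠ q) (h2 : p ≠ 2) :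
    ((p : ℚ) / (2 * q)).num.natAbs = p := by
  have hc : Nat.Coprime p (2 * q) :=
    Nat.Coprime.mul_right ((Nat.coprime_primes hp Nat.prime_two).2 h2)
      ((Nat.coprime_primes hp hq).2 h)
  have h1 : ((p : ℚ) / (2 * q)) = ((p : ℤ) : ℚ) / (((2 * q : ℕ) : ℤ) : ℚ) := by
    push_cast
    rfl
  rw [h1, Rat.num_div_eq_of_coprime (by have := hq.pos; push_cast; omega)
    (by rw [Int.natAbs_natCast, Int.natAbs_natCast]; exact hc)]
  exact Int.natAbs_natCast _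

/-- ARV -/
theorem arv (gda : GdaStmt) (gdb : GdbStmt) (exa : ExaStmt) (exb : ExbStmt) (exc : ExcStmt)
    (scl : SclStmt) : ArvStmt := by
  intro k hk hsq
  obtain ⟨k₀, c, hk₀, hc, rfl⟩ := sqf_rat hk
  have hm1 : k₀ ≠ -1 := by
    rintro rfl
    apply hsq
    refine ⟨c, ?_⟩
    push_cast
    ring
  apply inf_of
  intro N
  suffices h : ∃ t : ℚ, Gd k₀ t ∧ N < t.num.natAbs by
    obtain ⟨t, ht, hN⟩ := h
    exact ⟨t, gd_sq scl hc ht, hN⟩
  by_cases h2 : k₀ = 2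
  · subst h2
    obtain ⟨p, q, r, hN, h⟩ := exc N
    refine ⟨p / (2 * q), by exact_mod_cast gdb.2 p q r h, ?_⟩
    have hp := h.mp
    have hq := h.mq
    rw [num3 h.pp h.pq (by omega) (by omega)]
    exact hN
  by_cases h3 : k₀ % 4 = 3
  · have hodd : Odd k₀ := Int.odd_iff.2 (by omega)
    obtain ⟨p, q, r, hN, h, hleg⟩ := exb k₀ hk₀ hodd N
    have : Fact q.Prime := ⟨h.pq⟩
    have hl := hleg hm1 (by rintro rfl; omega)
    refine ⟨-(2 * p / q), gdb.1 k₀ p q r h h3 hl, ?_⟩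
    have hp := h.mp
    have hq := h.mq
    rw [Rat.neg_num, Int.natAbs_neg, num1 h.pp h.pq (by omega) (by omega)]
    omega
  · obtain ⟨p, q, r, hN, h, hleg⟩ := exa k₀ hk₀ N
    have : Fact q.Prime := ⟨h.pq⟩
    have hl := hleg hm1 h2
    have h4 : k₀ % 4 = 1 ∨ 2 ∣ k₀ := by omega
    refine ⟨2 * p / q, (gda k₀ p q r h).1 h4 hl, ?_⟩
    have hq := h.mq
    rw [num1 h.pp h.pq h.ne (by omega)]
    omega

end

end Pool.Agent.G02.H80
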