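import Pool.Agent.G02.StmtsR

/-!
# Squad G02, row NSQ: a point which is not a double stays not a double (helper80)
-/

set_option autoImplicit false

namespace Pool.Agent.G02.H80

open Polynomial Pool.Agent.NJ Pool.Agent.GT.F Pool.Agent.G02

theorem charZero_ratFunc : CharZero (RatFunc ℚ) :=
  charZero_of_injective_algebraMap (R := ℚ[X]) (IsFractionRing.injective ℚ[X] (RatFunc ℚ))

/-- the function `f` has the value `v` at `t` -/
def Ev (t : ℚ) (f : RatFunc ℚ) (v : ℚ) : Prop := f.denom.eval t ≠ 0 ∧ ev t f = v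

section ev

variable {t : ℚ} {f g : RatFunc ℚ} {v w : ℚ}

theorem Ev.add (hE : EvlStmt) (hf : Ev t f v) (hg : Ev t g w) : Ev t (f + g) (v + w) := by
  obtain ⟨h1, h2, -⟩ := hE.1 t f g hf.1 hg.1
  exact ⟨h1, by rw [h2, hf.2, hg.2]⟩

theorem Ev.sub (hE : EvlStmt) (hf : Ev t f v) (hg : Ev t g w) : Ev t (f - g) (v - w) := by
  obtain ⟨-, -, h1, h2, -⟩ := hE.1 t f g hf.1 hg.1
  exact ⟨h1, by rw [h2, hf.2, hg.2]⟩

theorem Ev.mul (hE : EvlStmt) (hf : Ev t f v) (hg : Ev t g w) : Ev t (f * g) (v * w) := by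
  obtain ⟨-, -, -, -, h1, h2⟩ := hE.1 t f g hf.1 hg.1
  exact ⟨h1, by rw [h2, hf.2, hg.2]⟩

theorem Ev.poly (hE : EvlStmt) (t : ℚ) (p : ℚ[X]) :
    Ev t (algebraMap ℚ[X] (RatFunc ℚ) p) (p.eval t) := hE.2.1 t p

theorem Ev.two (hE : EvlStmt) (t : ℚ) : Ev t 2 2 := by
  have h := Ev.poly hE t (C 2)
  rw [eval_C] at h
  have e1 : algebraMap ℚ[X] (RatFunc ℚ) (C 2) = 2 := by
    rw [show (C 2 : ℚ[X]) = 2 from rfl, map_ofNat]
  rwa [e1] at h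

theorem Ev.inv (hE : EvlStmt) (hf : Ev t f v) (hv : v ≠ 0) : Ev t f⁻¹ v⁻¹ := by
  obtain ⟨h1, h2⟩ := hE.2.2.1 t f hf.1 (by rw [hf.2]; exact hv)
  exact ⟨h1, by rw [h2, hf.2]⟩

theorem Ev.div (hE : EvlStmt) (hf : Ev t f v) (hg : Ev t g w) (hw : w ≠ 0) :
    Ev t (f / g) (v / w) := by
  rw [div_eq_mul_inv, div_eq_mul_inv]
  exact Ev.mul hE hf (Ev.inv hE hg hw)

end ev

/-- the equation of a point -/
theorem eqn {K : Type} [Field K] [CharZero K] {W : WeierstrassCurve K} {e a b x y : K}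
    (hR : Rt1 W e a b) (h : W.toAffine.Equation x y) :
    (2 * y + W.a₁ * x + W.a₃) ^ 2 = 4 * ((x - e) * ((x - e) ^ 2 + a * (x - e) + b)) := by
  rw [WeierstrassCurve.Affine.equation_iff] at h
  obtain ⟨h2, h4, h6⟩ := hR
  rw [WeierstrassCurve.b₂] at h2
  rw [WeierstrassCurve.b₄] at h4
  rw [WeierstrassCurve.b₆] at h6
  linear_combination 4 * h + x ^ 2 * h2 + 2 * x * h4 + h6

/-- a polynomial which is a square of a rational function is a square -/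
theorem sq_poly {b : ℚ[X]} (h : IsSquare (algebraMap ℚ[X] (RatFunc ℚ) b)) : IsSquare b := by
  obtain ⟨g, hg⟩ := h
  have h1 : IsIntegral ℚ[X] (g ^ 2) := by
    rw [pow_two, ← hg]
    exact isIntegral_algebraMap
  obtain ⟨p, hp⟩ := IsIntegrallyClosed.exists_algebraMap_eq_of_isIntegral_pow
    (K := RatFunc ℚ) (by norm_num : 0 < 2) h1
  refine ⟨p, ?_⟩
  apply IsFractionRing.injective ℚ[X] (RatFunc ℚ)
  rw [hg, map_mul, hp]

theorem sep_mono {B : Finset ℚ} {t : ℚ} {n n' : ℕ} (hn : n ≤ n') (h : Sep B t n') : Sep B t n := by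
  intro c hc
  obtain ⟨p, hp, h1, h2⟩ := h c hc
  exact ⟨p, hp, lt_of_le_of_lt hn h1, h2⟩

/-- NSQ -/
theorem nsq (hd1 : Hd1Stmt) (hd2 : Hd2Stmt) (clg : ClgStmt) (sqe : SqeStmt) (hE : EvlStmt) :
    NsqStmt := by
  intro _ _ E e a b B hΔ hR hb hm hbs hG P hP
  have _ := charZero_ratFunc
  obtain ⟨hc1, hc2, hc3, -⟩ := clg a b B hb hm hG
  have hinj := IsFractionRing.injective ℚ[X] (RatFunc ℚ)
  obtain ⟨φ, hφ⟩ : ∃ φ, φ = algebraMap ℚ[X] (RatFunc ℚ) := ⟨_, rfl⟩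
  rw [← hφ] at hc1 hc2 hc3 hinj
  have hEp : ∀ (t : ℚ) (p : ℚ[X]), Ev t (φ p) (p.eval t) := by
    intro t p
    rw [hφ]
    exact Ev.poly hE t p
  have hRg : Rt1 (gen E) (φ e) (φ a) (φ b) := by
    rw [hφ]
    exact hR.map _
  have hRf : ∀ t : ℚ, Rt1 (fib E t) (e.eval t) (a.eval t) (b.eval t) := fun t =>
    hR.map (evalRingHom t)
  have hb' : φ b ≠ 0 := (map_ne_zero_iff φ hinj).2 hb
  have hm' : φ a ^ 2 - 4 * φ b ≠ 0 := by
    have h1 : φ (a ^ 2 - 4 * b) ≠ 0 := (map_ne_zero_iff φ hinj).2 hm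
    rwa [map_sub, map_pow, map_mul, map_ofNat] at h1
  obtain ⟨Zb, hZb⟩ := hE.2.2.2 (φ b)
  obtain ⟨Zm, hZm⟩ := hE.2.2.2 (φ (a ^ 2 - 4 * b))
  have hbt : ∀ t ∉ Zb, b.eval t ≠ 0 := by
    intro t ht
    have h1 := (hZb t ht).2 hb'
    rwa [(hEp t b).2] at h1
  have hmt : ∀ t ∉ Zm, (a.eval t) ^ 2 - 4 * b.eval t ≠ 0 := by
    intro t ht
    have h1 := (hZm t ht).2 ((map_ne_zero_iff φ hinj).2 hm)
    rw [(hEp t _).2] at h1
    simpa using h1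
  rcases P with _ | ⟨x, y, h⟩
  · exact absurd ⟨0, (add_zero 0).symm⟩ hP
  have heq := eqn hRg h.1
  by_cases hxe : x = φ e
  · -- (A)
    have hns : ¬ IsSquare (φ b) := by
      intro h1
      rw [hφ] at h1
      exact hbs (sq_poly h1)
    obtain ⟨k, R, hk, hRB, hsq⟩ := hc3
    obtain ⟨n, Z, hZ⟩ := sqe B (φ b) k R hb' hk hRB hsq hns
    refine ⟨n, Z ∪ Zb ∪ Zm, ?_⟩
    intro t ht hsep sp hsp
    simp only [Finset.mem_union, not_or] at ht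
    obtain ⟨⟨ht1, ht2⟩, ht3⟩ := ht
    have h1 := (hZ t ht1 hsep).2
    rw [(hEp t b).2] at h1
    have hx := hEp t e
    rw [← hxe] at hx
    obtain ⟨h', hs⟩ := hsp.1 x y h hx.1
    rintro ⟨Q, hQ⟩
    have hQ' : sp (.some x y h) = Q + Q := hQ
    rw [hs] at hQ'
    exact h1 ((hd2 ℚ (fib E t) _ _ _ (hRf t) (hbt t ht2) (hmt t ht3) _ _ h' Q hQ').1 hx.2)
  have hX0 : x - φ e ≠ 0 := sub_ne_zero.2 hxe
  obtain ⟨Zx, hZx⟩ := hE.2.2.2 x
  by_cases hXs : IsSquare (x - φ e)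
  · -- (C)
    obtain ⟨s, hs⟩ := hXs
    have hs2 : x - φ e = s ^ 2 := by rw [hs, pow_two]
    have hs0 : s ≠ 0 := by
      rintro rfl
      rw [mul_zero] at hs
      exact hX0 hs
    obtain ⟨q, hq⟩ : ∃ q, q = 2 * y + (gen E).a₁ * x + (gen E).a₃ := ⟨_, rfl⟩
    rw [← hq, hs2] at heq
    obtain ⟨z, hz⟩ : ∃ z, z = φ a + 2 * s ^ 2 + q / s := ⟨_, rfl⟩
    obtain ⟨z', hz'⟩ : ∃ z', z' = φ a + 2 * s ^ 2 - q / s := ⟨_, rfl⟩
    have hq2 : (q / s) ^ 2 = 4 * (s ^ 4 + φ a * s ^ 2 + φ b) := by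
      rw [div_pow, heq]
      field_simp
    have hzz : z * z' = φ a ^ 2 - 4 * φ b := by
      rw [hz, hz']
      linear_combination -hq2
    have hz0 : z ≠ 0 := by
      rintro h0
      rw [h0, zero_mul] at hzz
      exact hm' hzz.symm
    have hz0' : z' ≠ 0 := by
      rintro h0
      rw [h0, mul_zero] at hzz
      exact hm' hzz.symm
    have hn1 : ¬ IsSquare z := by
      intro h1
      apply hP
      exact hd1 (RatFunc ℚ) (gen E) _ _ _ hRg hb' hm' x y s h hs0 hs2 (by rw [← hq, ← hz]; exact h1)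
    have hn2 : ¬ IsSquare z' := by
      intro h1
      apply hP
      refine hd1 (RatFunc ℚ) (gen E) _ _ _ hRg hb' hm' x y (-s) h (neg_ne_zero.2 hs0)
        (by rw [neg_sq]; exact hs2) ?_
      rw [← hq, neg_sq, div_neg, ← sub_eq_add_neg, ← hz']
      exact h1
    obtain ⟨k₁, R₁, hk₁, hRB₁, hsq₁⟩ := hc2 z (2 * s * z) hz0 (by
      rw [← hzz, hz, hz']
      ring)
    obtain ⟨k₂, R₂, hk₂, hRB₂, hsq₂⟩ := hc2 z' (2 * s * z') hz0' (by
      rw [← hzz, hz, hz']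
      ring)
    obtain ⟨n₁, Z₁, hZ₁⟩ := sqe B z k₁ R₁ hz0 hk₁ hRB₁ hsq₁ hn1
    obtain ⟨n₂, Z₂, hZ₂⟩ := sqe B z' k₂ R₂ hz0' hk₂ hRB₂ hsq₂ hn2
    obtain ⟨Zy, hZy⟩ := hE.2.2.2 y
    obtain ⟨Zs, hZs⟩ := hE.2.2.2 s
    refine ⟨max n₁ n₂, Z₁ ∪ Z₂ ∪ Zb ∪ Zm ∪ Zx ∪ Zy ∪ Zs, ?_⟩
    intro t ht hsep sp hsp
    simp only [Finset.mem_union, not_or] at ht
    obtain ⟨⟨⟨⟨⟨⟨ht1, ht2⟩, ht3⟩, ht4⟩, ht5⟩, ht6⟩, ht7⟩ := ht
    have hns1 := (hZ₁ t ht1 (sep_mono (le_max_left _ _) hsep)).2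
    have hns2 := (hZ₂ t ht2 (sep_mono (le_max_right _ _) hsep)).2
    have hst := (hZs t ht7).2 hs0
    obtain ⟨h', hsp1⟩ := hsp.1 x y h (hZx t ht5).1
    have ex : Ev t x (ev t x) := ⟨(hZx t ht5).1, rfl⟩
    have ey : Ev t y (ev t y) := ⟨(hZy t ht6).1, rfl⟩
    have es : Ev t s (ev t s) := ⟨(hZs t ht7).1, rfl⟩
    have e2 := Ev.two hE t
    have ea1 : Ev t (gen E).a₁ (fib E t).a₁ := by
      have h1 := hEp t E.a₁
      rw [hφ] at h1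
      exact h1
    have ea3 : Ev t (gen E).a₃ (fib E t).a₃ := by
      have h1 := hEp t E.a₃
      rw [hφ] at h1
      exact h1
    have eq1 : Ev t q (2 * ev t y + (fib E t).a₁ * ev t x + (fib E t).a₃) := by
      rw [hq]
      exact Ev.add hE (Ev.add hE (Ev.mul hE e2 ey) (Ev.mul hE ea1 ex)) ea3
    have es2 : Ev t (s ^ 2) (ev t s ^ 2) := by
      rw [pow_two, pow_two]
      exact Ev.mul hE es es
    have eX : ev t x - e.eval t = ev t s ^ 2 := by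
      have h1 := Ev.sub hE ex (hEp t e)
      rw [hs2] at h1
      rw [← h1.2, es2.2]
    have ez : Ev t z (a.eval t + 2 * ev t s ^ 2 +
        (2 * ev t y + (fib E t).a₁ * ev t x + (fib E t).a₃) / ev t s) := by
      rw [hz]
      exact Ev.add hE (Ev.add hE (hEp t a) (Ev.mul hE e2 es2)) (Ev.div hE eq1 es hst)
    have ez' : Ev t z' (a.eval t + 2 * ev t s ^ 2 -
        (2 * ev t y + (fib E t).a₁ * ev t x + (fib E t).a₃) / ev t s) := by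
      rw [hz']
      exact Ev.sub hE (Ev.add hE (hEp t a) (Ev.mul hE e2 es2)) (Ev.div hE eq1 es hst)
    rintro ⟨Q, hQ⟩
    have hQ' : sp (.some x y h) = Q + Q := hQ
    rw [hsp1] at hQ'
    have hne : ev t x ≠ e.eval t := by
      intro h1
      rw [h1, sub_self] at eX
      exact pow_ne_zero 2 hst eX.symm
    obtain ⟨s₁, hs₁, hxs, hsq⟩ := (hd2 ℚ (fib E t) _ _ _ (hRf t) (hbt t ht3) (hmt t ht4) _ _
      h' Q hQ').2 hne
    rw [eX] at hxs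
    rcases sq_eq_sq_iff_eq_or_eq_neg.1 hxs with h1 | h1
    · rw [← h1] at hsq
      rw [ez.2] at hns1
      exact hns1 hsq
    · have h2 : s₁ = -ev t s := by rw [h1, neg_neg]
      rw [h2, neg_sq, div_neg, ← sub_eq_add_neg] at hsq
      rw [ez'.2] at hns2
      exact hns2 hsq
  · -- (B)
    obtain ⟨k, R, hk, hRB, hsq⟩ := hc1 (x - φ e) ((2 * y + (gen E).a₁ * x + (gen E).a₃) / 2) hX0 (by
      rw [div_pow, heq]
      ring)
    obtain ⟨n, Z, hZ⟩ := sqe B (x - φ e) k R hX0 hk hRB hsq hXs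
    refine ⟨n, Z ∪ Zb ∪ Zm ∪ Zx, ?_⟩
    intro t ht hsep sp hsp
    simp only [Finset.mem_union, not_or] at ht
    obtain ⟨⟨⟨ht1, ht2⟩, ht3⟩, ht4⟩ := ht
    have h1 := (hZ t ht1 hsep).2
    have ex : Ev t x (ev t x) := ⟨(hZx t ht4).1, rfl⟩
    rw [(Ev.sub hE ex (hEp t e)).2] at h1
    obtain ⟨h', hs⟩ := hsp.1 x y h ex.1
    rintro ⟨Q, hQ⟩
    have hQ' : sp (.some x y h) = Q + Q := hQ
    rw [hs] at hQ'
    have hne : ev t x ≠ e.eval t := by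
      intro h2
      apply h1
      rw [h2, sub_self]
      exact ⟨0, (mul_zero 0).symm⟩
    obtain ⟨s₁, -, hxs, -⟩ := (hd2 ℚ (fib E t) _ _ _ (hRf t) (hbt t ht2) (hmt t ht3) _ _
      h' Q hQ').2 hne
    apply h1
    exact ⟨s₁, by rw [hxs, pow_two]⟩

end Pool.Agent.G02.H80
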